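import Mathlib
import Pool.Agent.Helper540.Osgood
import Pool.Agent.Helper417.Mer.HartogsExt

/-!
# Second order coefficients along Loewner chains of the bidisc

Coefficient of `z₂²` in the first component, bounded by elementary steps.
-/

set_option autoImplicit false

open Filter Topology Metric Set

namespace Q72.BD

/-- the open unit bidisc -/
abbrev B2 : Set (ℂ × ℂ) := Metric.ball 0 1

lemma mem_B2 {z : ℂ × ℂ} : z ∈ B2 ↔ ‖z.1‖ < 1 ∧ ‖z.2‖ < 1 := by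
  rw [mem_ball_zero_iff, Prod.norm_def, max_lt_iff]

/-- coefficient of `z₂²` of a scalar function -/
noncomputable def q (h : ℂ × ℂ → ℂ) : ℂ := (1 / 2) * iteratedDeriv 2 (fun w : ℂ => h (0, w)) 0

/-- The second Taylor coefficient as a limit. -/
lemma tendsto_coeff {g : ℂ → ℂ} (hg : AnalyticAt ℂ g 0) (h0 : g 0 = 0) (h1 : deriv g 0 = 0) :
    Tendsto (fun w : ℂ => g w / w ^ 2) (𝓝[≠] 0) (𝓝 (iteratedDeriv 2 g 0 / 2)) := by
  have hO := (hg.hasFPowerSeriesAt).isBigO_sub_partialSum_pow 3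
  have hps : ∀ y : ℂ, (FormalMultilinearSeries.ofScalars ℂ
      (fun n => iteratedDeriv n g 0 / (n.factorial : ℂ))).partialSum 3 y
        = (iteratedDeriv 2 g 0 / 2) * y ^ 2 := by
    intro y
    simp [FormalMultilinearSeries.partialSum, Finset.sum_range_succ, h0, h1,
      FormalMultilinearSeries.ofScalars, smul_eq_mul]
  simp only [hps, zero_add] at hO
  have hO' : (fun y : ℂ => g y - (iteratedDeriv 2 g 0 / 2) * y ^ 2) =o[𝓝[≠] 0]
      fun y : ℂ => y ^ 2 := by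
    refine (hO.mono nhdsWithin_le_nhds).trans_isLittleO ?_
    rw [Asymptotics.isLittleO_iff]
    intro c hc
    have : ∀ᶠ y : ℂ in 𝓝 0, ‖y‖ < c := by
      have := Metric.ball_mem_nhds (0 : ℂ) hc
      filter_upwards [this] with y hy
      simpa using hy
    filter_upwards [this.filter_mono nhdsWithin_le_nhds] with y hy
    rw [norm_pow, norm_pow, norm_norm]
    nlinarith [sq_nonneg ‖y‖]
  have hT : Tendsto (fun y : ℂ => (g y - (iteratedDeriv 2 g 0 / 2) * y ^ 2) / y ^ 2) (𝓝[≠] 0)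
      (𝓝 0) := hO'.tendsto_div_nhds_zero
  have := hT.add_const (iteratedDeriv 2 g 0 / 2)
  rw [zero_add] at this
  refine this.congr' ?_
  filter_upwards [self_mem_nhdsWithin] with y hy
  have hy0 : y ≠ 0 := hy
  field_simp
  ring

lemma strict_of_diffOn {E F : Type*} [NormedAddCommGroup E] [NormedSpace ℂ E]
    [FiniteDimensional ℂ E] [NormedAddCommGroup F] [NormedSpace ℂ F] [CompleteSpace F]
    {h : E → F} {s : Set E} (hs : IsOpen s) (hd : DifferentiableOn ℂ h s) {x : E} (hx : x ∈ s) :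
    HasStrictFDerivAt h (fderiv ℂ h x) x := by
  have h1 : ContDiffOn ℂ 1 h s := by
    have := Pool.Agent.Helper417.Mer.Hartogs673.contDiffOn_of_differentiableOn hs hd 1
    exact_mod_cast this
  have h2 : ContDiffAt ℂ 1 h x := h1.contDiffAt (hs.mem_nhds hx)
  exact h2.hasStrictFDerivAt one_ne_zero

/-- the slice of a scalar function along the second axis -/
lemma slice_props {h : ℂ × ℂ → ℂ} (hd : DifferentiableOn ℂ h B2) {lam : ℂ}
    (hD : fderiv ℂ h 0 = lam • ContinuousLinearMap.fst ℂ ℂ ℂ) :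
    DifferentiableOn ℂ (fun w : ℂ => h (0, w)) (ball 0 1) ∧
      deriv (fun w : ℂ => h (0, w)) 0 = 0 := by
  have hU : B2 ∈ 𝓝 (0 : ℂ × ℂ) := Metric.ball_mem_nhds _ one_pos
  have hda : DifferentiableAt ℂ h 0 := hd.differentiableAt hU
  have hfd : HasFDerivAt h (lam • ContinuousLinearMap.fst ℂ ℂ ℂ) 0 := hD ▸ hda.hasFDerivAt
  refine ⟨?_, ?_⟩
  · intro ζ hζ
    have hζ' : ‖ζ‖ < 1 := by simpa using hζ
    have h1 : DifferentiableAt ℂ h (0, ζ) :=
      hd.differentiableAt (isOpen_ball.mem_nhds (mem_B2.2 ⟨by simp, hζ'⟩))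
    have h2 : DifferentiableAt ℂ (fun ζ : ℂ => ((0, ζ) : ℂ × ℂ)) ζ := by fun_prop
    exact (DifferentiableAt.comp ζ h1 h2).differentiableWithinAt
  · have h2 : HasDerivAt (fun ζ : ℂ => ((0, ζ) : ℂ × ℂ)) (0, 1) 0 :=
      (hasDerivAt_const (0 : ℂ) (0 : ℂ)).prodMk (hasDerivAt_id (0 : ℂ))
    have h3 : HasFDerivAt h (lam • ContinuousLinearMap.fst ℂ ℂ ℂ) ((0 : ℂ), (0 : ℂ)) := hfd
    have := h3.comp_hasDerivAt (0 : ℂ) h2
    have h4 := this.deriv
    simpa [Function.comp_def] using h4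

lemma tendsto_q {h : ℂ × ℂ → ℂ} (hd : DifferentiableOn ℂ h B2) (h0 : h 0 = 0) {lam : ℂ}
    (hD : fderiv ℂ h 0 = lam • ContinuousLinearMap.fst ℂ ℂ ℂ) :
    Tendsto (fun w : ℂ => h (0, w) / w ^ 2) (𝓝[≠] 0) (𝓝 (q h)) := by
  obtain ⟨h1, h2⟩ := slice_props hd hD
  have han : AnalyticAt ℂ (fun w : ℂ => h (0, w)) 0 :=
    h1.analyticAt (Metric.ball_mem_nhds 0 one_pos)
  have := tendsto_coeff han h0 h2
  rw [q]
  convert this using 2
  ring

/-- The scalar form of the upper bound. -/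
lemma scalar_bound {h : ℂ × ℂ → ℂ} {M : ℝ} (hd : DifferentiableOn ℂ h B2) (h0 : h 0 = 0)
    {lam : ℝ} (hlam : 0 ≤ lam)
    (hD : fderiv ℂ h 0 = (lam : ℂ) • ContinuousLinearMap.fst ℂ ℂ ℂ)
    (hM : ∀ z ∈ B2, ‖h z‖ ≤ M) : lam + ‖q h‖ ≤ M := by
  set a : ℂ := q h with ha
  have hU : B2 ∈ 𝓝 (0 : ℂ × ℂ) := Metric.ball_mem_nhds _ one_pos
  have hda : DifferentiableAt ℂ h 0 := hd.differentiableAt hU
  have hfd : HasFDerivAt h ((lam : ℂ) • ContinuousLinearMap.fst ℂ ℂ ℂ) 0 :=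
    hD ▸ hda.hasFDerivAt
  -- choose a unimodular number
  obtain ⟨u, hu, hua⟩ : ∃ u : ℂ, ‖u‖ = 1 ∧ u ^ 2 * a = ‖a‖ := by
    by_cases ha0 : a = 0
    · exact ⟨1, by simp, by simp [ha0]⟩
    · obtain ⟨u, hu⟩ := IsAlgClosed.exists_pow_nat_eq ((‖a‖ : ℂ) / a) (n := 2) (by norm_num)
      have hna : (‖a‖ : ℝ) ≠ 0 := norm_ne_zero_iff.2 ha0
      refine ⟨u, ?_, by rw [hu]; field_simp⟩
      have h1 : ‖u‖ ^ 2 = 1 := by
        rw [← norm_pow, hu, norm_div, Complex.norm_real, norm_norm, div_self hna]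
      nlinarith [norm_nonneg u]
  have hu0 : u ≠ 0 := by
    intro h; rw [h, norm_zero] at hu; exact one_ne_zero hu.symm
  -- the one variable function
  set G : ℂ → ℂ := fun ζ => h (ζ ^ 2, ζ * u) with hG
  have hmem : ∀ ζ : ℂ, ‖ζ‖ < 1 → (ζ ^ 2, ζ * u) ∈ B2 := by
    intro ζ hζ
    rw [mem_B2]
    refine ⟨?_, ?_⟩
    · show ‖ζ ^ 2‖ < 1
      rw [norm_pow]; nlinarith [norm_nonneg ζ]
    · show ‖ζ * u‖ < 1
      rw [norm_mul, hu, mul_one]; exact hζ
  have hGd : DifferentiableOn ℂ G (Metric.ball 0 1) := by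
    intro ζ hζ
    have hζ' : ‖ζ‖ < 1 := by simpa using hζ
    have h1 : DifferentiableAt ℂ h (ζ ^ 2, ζ * u) :=
      hd.differentiableAt (isOpen_ball.mem_nhds (hmem ζ hζ'))
    have h2 : DifferentiableAt ℂ (fun ζ : ℂ => ((ζ ^ 2, ζ * u) : ℂ × ℂ)) ζ := by fun_prop
    exact (DifferentiableAt.comp ζ h1 h2).differentiableWithinAt
  have hGM : ∀ ζ : ℂ, ‖ζ‖ < 1 → ‖G ζ‖ ≤ M := fun ζ hζ => hM _ (hmem ζ hζ)
  have hpt : ((0 : ℂ) ^ 2, (0 : ℂ) * u) = (0 : ℂ × ℂ) := by simp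
  have hG0 : G 0 = 0 := by rw [hG]; simp only [hpt]; exact h0
  have hGan : AnalyticAt ℂ G 0 := hGd.analyticAt (Metric.ball_mem_nhds 0 one_pos)
  have hG1 : deriv G 0 = 0 := by
    have h2 : HasDerivAt (fun ζ : ℂ => ((ζ ^ 2, ζ * u) : ℂ × ℂ)) (2 * 0 ^ 1 * 1, 1 * u) 0 := by
      have e1 : HasDerivAt (fun ζ : ℂ => ζ ^ 2) (2 * 0 ^ 1 * 1) 0 := by
        simpa using hasDerivAt_pow 2 (0 : ℂ)
      exact e1.prodMk ((hasDerivAt_id (0 : ℂ)).mul_const u)
    have h3 : HasFDerivAt h ((lam : ℂ) • ContinuousLinearMap.fst ℂ ℂ ℂ)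
        ((0 : ℂ) ^ 2, (0 : ℂ) * u) := by
      rw [hpt]; exact hfd
    have := h3.comp_hasDerivAt (0 : ℂ) h2
    have h4 := this.deriv
    simpa [hG, Function.comp_def] using h4
  have hC : ‖iteratedDeriv 2 G 0 / 2‖ ≤ M := by
    have hr : ∀ r : ℝ, 0 < r → r < 1 → ‖iteratedDeriv 2 G 0 / 2‖ * r ^ 2 ≤ M := by
      intro r hr0 hr1
      have hcl : DiffContOnCl ℂ G (Metric.ball 0 r) := by
        apply DifferentiableOn.diffContOnCl
        rw [closure_ball 0 hr0.ne']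
        exact hGd.mono (Metric.closedBall_subset_ball hr1)
      have := Complex.norm_iteratedDeriv_le_of_forall_mem_sphere_norm_le 2 hr0 hcl
        (C := M) (fun z hz => hGM z (by
          have : ‖z‖ = r := by simpa using hz
          rw [this]; exact hr1))
      rw [norm_div, Complex.norm_ofNat]
      simp only [Nat.factorial, Nat.succ_eq_add_one] at this
      rw [le_div_iff₀ (by positivity)] at this
      norm_num at this ⊢
      linarith
    have hlim : Tendsto (fun r : ℝ => ‖iteratedDeriv 2 G 0 / 2‖ * r ^ 2) (𝓝[<] 1)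
        (𝓝 (‖iteratedDeriv 2 G 0 / 2‖ * 1 ^ 2)) := by
      apply Tendsto.mono_left _ nhdsWithin_le_nhds
      exact Continuous.tendsto (by fun_prop) 1
    rw [one_pow, mul_one] at hlim
    refine le_of_tendsto hlim ?_
    have h01 : Set.Ioo (0 : ℝ) 1 ∈ 𝓝[<] (1 : ℝ) := Ioo_mem_nhdsLT one_pos
    filter_upwards [h01] with r hr1
    exact hr r hr1.1 hr1.2
  -- identify the limit
  have hL1 := tendsto_coeff hGan hG0 hG1
  have hL2 := tendsto_q hd h0 hD
  -- `H (ζ u) / ζ²  → u² a`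
  have hL3 : Tendsto (fun ζ : ℂ => h (0, ζ * u) / ζ ^ 2) (𝓝[≠] 0) (𝓝 (a * u ^ 2)) := by
    have hmap : Tendsto (fun ζ : ℂ => ζ * u) (𝓝[≠] 0) (𝓝[≠] 0) := by
      apply tendsto_nhdsWithin_iff.2
      refine ⟨?_, ?_⟩
      · apply Tendsto.mono_left _ nhdsWithin_le_nhds
        have : Continuous fun ζ : ℂ => ζ * u := by fun_prop
        simpa using this.tendsto 0
      · filter_upwards [self_mem_nhdsWithin] with ζ hζ
        exact mul_ne_zero hζ hu0
    have h5 := (hL2.comp hmap).mul_const (u ^ 2)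
    refine h5.congr' ?_
    filter_upwards [self_mem_nhdsWithin] with ζ hζ
    have hζ0 : ζ ≠ 0 := hζ
    simp only [Function.comp]
    field_simp
  have hL4 : Tendsto (fun ζ : ℂ => (G ζ - h (0, ζ * u)) / ζ ^ 2) (𝓝[≠] 0) (𝓝 (lam : ℂ)) := by
    have hst : HasStrictFDerivAt h ((lam : ℂ) • ContinuousLinearMap.fst ℂ ℂ ℂ) 0 := by
      have := strict_of_diffOn isOpen_ball hd (x := 0) (mem_of_mem_nhds hU)
      rwa [hD] at this
    have hst' := hst.isLittleO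
    have hmap : Tendsto (fun ζ : ℂ => (((ζ ^ 2, ζ * u) : ℂ × ℂ), ((0, ζ * u) : ℂ × ℂ)))
        (𝓝[≠] 0) (𝓝 (0, 0)) := by
      apply Tendsto.mono_left _ nhdsWithin_le_nhds
      have : Continuous fun ζ : ℂ => (((ζ ^ 2, ζ * u) : ℂ × ℂ), ((0, ζ * u) : ℂ × ℂ)) := by
        fun_prop
      have h9 := this.tendsto 0
      have h10 : (((0 : ℂ) ^ 2, (0 : ℂ) * u), ((0 : ℂ), (0 : ℂ) * u)) = (0 : (ℂ × ℂ) × (ℂ × ℂ)) := by
        simp
      rw [h10] at h9
      exact h9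
    have h6 := hst'.comp_tendsto hmap
    have h7 : (fun ζ : ℂ => (G ζ - h (0, ζ * u)) - (lam : ℂ) * ζ ^ 2) =o[𝓝[≠] 0]
        fun ζ : ℂ => ζ ^ 2 := by
      refine (h6.congr_left ?_).trans_le ?_
      · intro ζ; simp [hG]
      · intro ζ; simp [Prod.norm_def]
    have h8 := h7.tendsto_div_nhds_zero.add_const (lam : ℂ)
    rw [zero_add] at h8
    refine h8.congr' ?_
    filter_upwards [self_mem_nhdsWithin] with ζ hζ
    have hζ0 : ζ ≠ 0 := hζ
    field_simp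
    ring
  have hsum := hL4.add hL3
  have hL5 : Tendsto (fun w : ℂ => G w / w ^ 2) (𝓝[≠] 0) (𝓝 ((lam : ℂ) + a * u ^ 2)) := by
    refine hsum.congr' ?_
    filter_upwards [self_mem_nhdsWithin] with ζ hζ
    have hζ0 : ζ ≠ 0 := hζ
    field_simp
    ring
  have huniq := tendsto_nhds_unique hL1 hL5
  rw [huniq, mul_comm a, hua] at hC
  have : ‖(lam : ℂ) + (‖a‖ : ℂ)‖ = lam + ‖a‖ := by
    rw [← Complex.ofReal_add, Complex.norm_real, Real.norm_of_nonneg (by positivity)]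
  rw [this] at hC
  exact hC

/-- One step of the recursion for the coefficient. -/
lemma coeff_step {Fs Ft v : ℂ × ℂ → ℂ × ℂ} (hs : DifferentiableOn ℂ Fs B2)
    (ht : DifferentiableOn ℂ Ft B2) (hv : DifferentiableOn ℂ v B2) (_hvm : MapsTo v B2 B2)
    (hs0 : Fs 0 = 0) (ht0 : Ft 0 = 0) (hv0 : v 0 = 0) (hcomp : ∀ z ∈ B2, Ft (v z) = Fs z)
    {A B : ℂ} {lam : ℝ} (hlam : 0 < lam)
    (hsD : fderiv ℂ Fs 0 = A • ContinuousLinearMap.id ℂ (ℂ × ℂ))
    (htD : fderiv ℂ Ft 0 = B • ContinuousLinearMap.id ℂ (ℂ × ℂ))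
    (hvD : fderiv ℂ v 0 = (lam : ℂ) • ContinuousLinearMap.id ℂ (ℂ × ℂ)) :
    q (fun z => (Fs z).1) = B * q (fun z => (v z).1) + (lam : ℂ) ^ 2 * q (fun z => (Ft z).1) := by
  have hU : B2 ∈ 𝓝 (0 : ℂ × ℂ) := Metric.ball_mem_nhds _ one_pos
  have hfst : ∀ {g : ℂ × ℂ → ℂ × ℂ} {C : ℂ}, DifferentiableOn ℂ g B2 →
      fderiv ℂ g 0 = C • ContinuousLinearMap.id ℂ (ℂ × ℂ) →
      fderiv ℂ (fun z => (g z).1) 0 = C • ContinuousLinearMap.fst ℂ ℂ ℂ := by
    intro g C hg hC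
    have h1 : HasFDerivAt g (C • ContinuousLinearMap.id ℂ (ℂ × ℂ)) 0 :=
      hC ▸ (hg.differentiableAt hU).hasFDerivAt
    rw [h1.fst.fderiv]
    ext <;> simp
  have hLs := tendsto_q (h := fun z => (Fs z).1) hs.fst (by simp [hs0]) (hfst hs hsD)
  have hLt := tendsto_q (h := fun z => (Ft z).1) ht.fst (by simp [ht0]) (hfst ht htD)
  have hLv := tendsto_q (h := fun z => (v z).1) hv.fst (by simp [hv0]) (hfst hv hvD)
  have hlam0 : (lam : ℂ) ≠ 0 := by exact_mod_cast hlam.ne'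
  -- second term
  have hL3 : Tendsto (fun ζ : ℂ => (Ft (0, (lam : ℂ) * ζ)).1 / ζ ^ 2) (𝓝[≠] 0)
      (𝓝 (q (fun z => (Ft z).1) * (lam : ℂ) ^ 2)) := by
    have hmap : Tendsto (fun ζ : ℂ => (lam : ℂ) * ζ) (𝓝[≠] 0) (𝓝[≠] 0) := by
      apply tendsto_nhdsWithin_iff.2
      refine ⟨?_, ?_⟩
      · apply Tendsto.mono_left _ nhdsWithin_le_nhds
        have : Continuous fun ζ : ℂ => (lam : ℂ) * ζ := by fun_prop
        simpa using this.tendsto 0
      · filter_upwards [self_mem_nhdsWithin] with ζ hζ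
        exact mul_ne_zero hlam0 hζ
    have h5 := (hLt.comp hmap).mul_const ((lam : ℂ) ^ 2)
    refine h5.congr' ?_
    filter_upwards [self_mem_nhdsWithin] with ζ hζ
    have hζ0 : ζ ≠ 0 := hζ
    simp only [Function.comp]
    field_simp
  -- first term
  set p1 : ℂ → ℂ × ℂ := fun ζ => v (0, ζ) with hp1
  set p2 : ℂ → ℂ × ℂ := fun ζ => (0, (lam : ℂ) * ζ) with hp2
  have hmap1 : Tendsto (fun ζ : ℂ => (p1 ζ, p2 ζ)) (𝓝 0) (𝓝 (0, 0)) := by
    have c1 : ContinuousAt p1 0 := by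
      have e1 : ContinuousAt v ((0 : ℂ), (0 : ℂ)) := (hv.differentiableAt hU).continuousAt
      exact ContinuousAt.comp (f := fun ζ : ℂ => ((0, ζ) : ℂ × ℂ)) e1 (by fun_prop)
    have c2 : ContinuousAt p2 0 := by rw [hp2]; fun_prop
    have e2 : p1 0 = 0 := hv0
    have e3 : p2 0 = 0 := by simp [hp2]
    have := c1.prodMk c2
    rw [ContinuousAt, e2, e3] at this
    exact this
  have hst : HasStrictFDerivAt (fun z => (Ft z).1) (B • ContinuousLinearMap.fst ℂ ℂ ℂ) 0 := by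
    have := strict_of_diffOn isOpen_ball ht.fst (x := 0) (mem_of_mem_nhds hU)
    rwa [hfst ht htD] at this
  have h6 := hst.isLittleO.comp_tendsto (hmap1.mono_left (nhdsWithin_le_nhds (s := {0}ᶜ)))
  -- the difference is O(ζ²)
  have hdiffO : (fun ζ : ℂ => p1 ζ - p2 ζ) =O[𝓝[≠] 0] fun ζ : ℂ => ζ ^ 2 := by
    have hbig : ∀ {g : ℂ → ℂ} {c : ℂ}, Tendsto (fun w : ℂ => g w / w ^ 2) (𝓝[≠] 0) (𝓝 c) →
        g =O[𝓝[≠] 0] fun ζ : ℂ => ζ ^ 2 := by
      intro g c hg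
      have h1 := hg.isBigO_one ℂ
      have h2 := h1.mul (Asymptotics.isBigO_refl (fun ζ : ℂ => ζ ^ 2) (𝓝[≠] 0))
      refine h2.congr' ?_ ?_
      · filter_upwards [self_mem_nhdsWithin] with ζ hζ
        have hζ0 : ζ ≠ 0 := hζ
        field_simp
      · exact Eventually.of_forall fun ζ => by simp
    have hp1d : DifferentiableOn ℂ p1 (ball 0 1) := by
      intro ζ hζ
      have hζ' : ‖ζ‖ < 1 := by simpa using hζ
      have h1 : DifferentiableAt ℂ v (0, ζ) :=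
        hv.differentiableAt (isOpen_ball.mem_nhds (mem_B2.2 ⟨by simp, hζ'⟩))
      have h2 : DifferentiableAt ℂ (fun ζ : ℂ => ((0, ζ) : ℂ × ℂ)) ζ := by fun_prop
      exact (DifferentiableAt.comp ζ h1 h2).differentiableWithinAt
    have hd1 : HasDerivAt p1 (0, (lam : ℂ)) 0 := by
      have h2 : HasDerivAt (fun ζ : ℂ => ((0, ζ) : ℂ × ℂ)) (0, 1) 0 :=
        (hasDerivAt_const (0 : ℂ) (0 : ℂ)).prodMk (hasDerivAt_id (0 : ℂ))
      have h3 : HasFDerivAt v ((lam : ℂ) • ContinuousLinearMap.id ℂ (ℂ × ℂ))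
          ((0 : ℂ), (0 : ℂ)) := hvD ▸ (hv.differentiableAt hU).hasFDerivAt
      have := h3.comp_hasDerivAt (0 : ℂ) h2
      simpa [Function.comp_def] using this
    have hd2 : HasDerivAt (fun ζ : ℂ => (p1 ζ).2 - (lam : ℂ) * ζ) 0 0 := by
      have h4 : HasDerivAt (fun ζ : ℂ => (p1 ζ).2) (lam : ℂ) 0 := by
        have := (hasFDerivAt_snd (𝕜 := ℂ) (p := p1 0)).comp_hasDerivAt (0 : ℂ) hd1
        simpa [Function.comp_def] using this
      have := h4.fun_sub ((hasDerivAt_id (0 : ℂ)).const_mul (lam : ℂ))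
      simpa using this
    have han : AnalyticAt ℂ (fun ζ : ℂ => (p1 ζ).2 - (lam : ℂ) * ζ) 0 := by
      have : DifferentiableOn ℂ (fun ζ : ℂ => (p1 ζ).2 - (lam : ℂ) * ζ) (ball 0 1) := by
        have := hp1d.snd
        fun_prop
      exact this.analyticAt (Metric.ball_mem_nhds 0 one_pos)
    have h5 := tendsto_coeff han (by simp [hp1, show v (0, 0) = 0 from hv0]) hd2.deriv
    have h6 := (hbig hLv).prod_left (hbig h5)
    refine h6.congr_left fun ζ => ?_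
    simp [hp1, hp2, Prod.sub_def]
  have h7 : (fun ζ : ℂ => ((Ft (p1 ζ)).1 - (Ft (p2 ζ)).1) - B * (v (0, ζ)).1) =o[𝓝[≠] 0]
      fun ζ : ℂ => ζ ^ 2 := by
    refine (h6.trans_isBigO hdiffO).congr_left ?_
    intro ζ; simp [hp1, hp2]
  have h8 := (h7.tendsto_div_nhds_zero.add (hLv.const_mul B)).add hL3
  rw [zero_add] at h8
  have h9 : Tendsto (fun ζ : ℂ => (Fs (0, ζ)).1 / ζ ^ 2) (𝓝[≠] 0)
      (𝓝 (B * q (fun z => (v z).1) + q (fun z => (Ft z).1) * (lam : ℂ) ^ 2)) := by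
    refine h8.congr' ?_
    have hb : ∀ᶠ ζ : ℂ in 𝓝[≠] 0, ‖ζ‖ < 1 := by
      have := Metric.ball_mem_nhds (0 : ℂ) one_pos
      apply Filter.Eventually.filter_mono nhdsWithin_le_nhds
      filter_upwards [this] with y hy
      simpa using hy
    filter_upwards [self_mem_nhdsWithin, hb] with ζ hζ hζ1
    have hζ0 : ζ ≠ 0 := hζ
    rw [← hcomp (0, ζ) (mem_B2.2 ⟨by simp, hζ1⟩)]
    simp only [hp1, hp2]
    field_simp
    ring
  rw [tendsto_nhds_unique hLs h9]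
  ring

/-- The transition maps of a Loewner chain. -/
lemma transition {Fs Ft : ℂ × ℂ → ℂ × ℂ} (hs : DifferentiableOn ℂ Fs B2)
    (ht : DifferentiableOn ℂ Ft B2) (hinj : InjOn Ft B2) (hs0 : Fs 0 = 0) (ht0 : Ft 0 = 0)
    (hsub : Fs '' B2 ⊆ Ft '' B2) {a b : ℝ}
    (hsD : fderiv ℂ Fs 0 = (Real.exp a : ℂ) • ContinuousLinearMap.id ℂ (ℂ × ℂ))
    (htD : fderiv ℂ Ft 0 = (Real.exp b : ℂ) • ContinuousLinearMap.id ℂ (ℂ × ℂ)) :
    ∃ v : ℂ × ℂ → ℂ × ℂ, DifferentiableOn ℂ v B2 ∧ MapsTo v B2 B2 ∧ v 0 = 0 ∧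
      (∀ z ∈ B2, Ft (v z) = Fs z) ∧
      fderiv ℂ v 0 = (Real.exp (a - b) : ℂ) • ContinuousLinearMap.id ℂ (ℂ × ℂ) := by
  have hex : ∀ z : ℂ × ℂ, ∃ w : ℂ × ℂ, z ∈ B2 → w ∈ B2 ∧ Ft w = Fs z := by
    intro z
    by_cases hz : z ∈ B2
    · obtain ⟨w, hw, hwz⟩ := hsub ⟨z, hz, rfl⟩
      exact ⟨w, fun _ => ⟨hw, hwz⟩⟩
    · exact ⟨0, fun h => absurd h hz⟩
  choose v hv using hex
  have h0 : (0 : ℂ × ℂ) ∈ B2 := mem_ball_self one_pos
  have hv0 : v 0 = 0 := by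
    apply hinj (hv 0 h0).1 h0
    rw [(hv 0 h0).2, hs0, ht0]
  have hd : DifferentiableOn ℂ v B2 :=
    Pool.Agent.Helper540.differentiableOn_of_comp rfl isOpen_ball isOpen_ball ht hinj
      hs (fun z hz => (hv z hz).1) (fun z hz => (hv z hz).2)
  refine ⟨v, hd, fun z hz => (hv z hz).1, hv0, fun z hz => (hv z hz).2, ?_⟩
  have hb : B2 ∈ 𝓝 (0 : ℂ × ℂ) := isOpen_ball.mem_nhds h0
  have hvd : HasFDerivAt v (fderiv ℂ v 0) 0 := (hd.differentiableAt hb).hasFDerivAt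
  have hFt : HasFDerivAt Ft (fderiv ℂ Ft 0) (v 0) := by
    rw [hv0]
    exact (ht.differentiableAt hb).hasFDerivAt
  have hFs : HasFDerivAt Fs (fderiv ℂ Fs 0) 0 := (hs.differentiableAt hb).hasFDerivAt
  have hcomp := hFt.comp 0 hvd
  have heq : Ft ∘ v =ᶠ[𝓝 0] Fs := by
    filter_upwards [hb] with z hz using (hv z hz).2
  have h1 := (hcomp.congr_of_eventuallyEq heq.symm).unique hFs
  rw [htD, hsD] at h1
  have hexp : ((Real.exp (a - b) : ℝ) : ℂ) * ((Real.exp b : ℝ) : ℂ) = ((Real.exp a : ℝ) : ℂ) := by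
    rw [← Complex.ofReal_mul, ← Real.exp_add]; congr 2; ring
  have hne : ((Real.exp b : ℝ) : ℂ) ≠ 0 := by exact_mod_cast (Real.exp_pos b).ne'
  refine ContinuousLinearMap.ext fun x => ?_
  have h2 := congrArg (fun T : ℂ × ℂ →L[ℂ] ℂ × ℂ => T x) h1
  simp only [ContinuousLinearMap.comp_apply, smul_apply,
    ContinuousLinearMap.id_apply] at h2 ⊢
  have h3 : ((Real.exp b : ℝ) : ℂ) • (fderiv ℂ v 0 x - ((Real.exp (a - b) : ℝ) : ℂ) • x) = 0 := by
    rw [smul_sub, h2, smul_smul, mul_comm, hexp, sub_self]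
  exact sub_eq_zero.1 ((smul_eq_zero.1 h3).resolve_left hne)

/-- The sharp bound `1` for a chain whose normalized coefficients are bounded. -/
lemma chain_bound {F : ℂ × ℂ → ℝ → ℂ × ℂ}
    (holo : ∀ t : ℝ, 0 ≤ t → DifferentiableOn ℂ (fun z => F z t) B2)
    (inj : ∀ t : ℝ, 0 ≤ t → Set.InjOn (fun z => F z t) B2)
    (map_zero : ∀ t : ℝ, 0 ≤ t → F 0 t = 0)
    (deriv_zero : ∀ t : ℝ, 0 ≤ t →
      fderiv ℂ (fun z => F z t) 0 = (Real.exp t : ℂ) • ContinuousLinearMap.id ℂ (ℂ × ℂ))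
    (mono : ∀ s t : ℝ, 0 ≤ s → s ≤ t → (fun z => F z s) '' B2 ⊆ (fun z => F z t) '' B2)
    {K : ℝ} (hK : ∀ t : ℝ, 0 ≤ t → Real.exp (-t) * ‖q (fun z => (F z t).1)‖ ≤ K) :
    ‖q (fun z => (F z 0).1)‖ ≤ 1 := by
  have hU : B2 ∈ 𝓝 (0 : ℂ × ℂ) := Metric.ball_mem_nhds _ one_pos
  set cof : ℝ → ℝ := fun t => Real.exp (-t) * ‖q (fun z => (F z t).1)‖ with hcof
  have hstep : ∀ s δ : ℝ, 0 ≤ s → 0 < δ →
      cof s ≤ (Real.exp δ - 1) + Real.exp (-δ) * cof (s + δ) := by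
    intro s δ hs hδ
    have ht : 0 ≤ s + δ := by linarith
    obtain ⟨v, hvd, hvm, hv0, hvF, hvD⟩ := transition (holo s hs) (holo _ ht) (inj _ ht)
      (map_zero s hs) (map_zero _ ht) (mono s (s + δ) hs (by linarith)) (deriv_zero s hs)
      (deriv_zero _ ht)
    have e0 : s - (s + δ) = -δ := by ring
    rw [e0] at hvD
    set lam : ℝ := Real.exp (-δ) with hlam
    have hlam0 : 0 < lam := Real.exp_pos _
    have h1 := coeff_step (holo s hs) (holo _ ht) hvd hvm (map_zero s hs) (map_zero _ ht) hv0 hvF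
      hlam0 (deriv_zero s hs) (deriv_zero _ ht) hvD
    have h2 : lam + ‖q (fun z => (v z).1)‖ ≤ 1 := by
      apply scalar_bound hvd.fst (by simp [hv0]) hlam0.le
      · have h3 : HasFDerivAt v ((lam : ℂ) • ContinuousLinearMap.id ℂ (ℂ × ℂ)) 0 :=
          hvD ▸ (hvd.differentiableAt hU).hasFDerivAt
        rw [h3.fst.fderiv]
        ext <;> simp
      · intro z hz
        exact (mem_B2.1 (hvm hz)).1.le
    have h3 : ‖q (fun z => (F z s).1)‖ ≤ Real.exp (s + δ) * (1 - lam) +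
        lam ^ 2 * ‖q (fun z => (F z (s + δ)).1)‖ := by
      rw [h1]
      refine (norm_add_le _ _).trans ?_
      rw [norm_mul, norm_mul, norm_pow, Complex.norm_real, Complex.norm_real,
        Real.norm_of_nonneg (Real.exp_pos _).le, Real.norm_of_nonneg hlam0.le]
      gcongr
      linarith
    have e1 : Real.exp (-s) * Real.exp (s + δ) = Real.exp δ := by
      rw [← Real.exp_add]; congr 1; ring
    have e2 : Real.exp (-s) * lam = Real.exp (-(s + δ)) := by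
      rw [hlam, ← Real.exp_add]; congr 1; ring
    have hlδ : lam * Real.exp δ = 1 := by rw [hlam, ← Real.exp_add]; simp
    simp only [hcof]
    calc Real.exp (-s) * ‖q (fun z => (F z s).1)‖
        ≤ Real.exp (-s) * (Real.exp (s + δ) * (1 - lam) +
          lam ^ 2 * ‖q (fun z => (F z (s + δ)).1)‖) := by gcongr
      _ = (Real.exp (-s) * Real.exp (s + δ)) * (1 - lam) + lam * ((Real.exp (-s) * lam) *
          ‖q (fun z => (F z (s + δ)).1)‖) := by ring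
      _ = (Real.exp δ - 1) + lam * (Real.exp (-(s + δ)) *
          ‖q (fun z => (F z (s + δ)).1)‖) := by
          rw [e1, e2]
          have : Real.exp δ * (1 - lam) = Real.exp δ - 1 := by
            rw [mul_sub, mul_one, mul_comm (Real.exp δ) lam, hlδ]
          rw [this]
  set S : Set ℝ := cof '' Ici 0 with hS
  have hSb : BddAbove S := ⟨K, by rintro _ ⟨t, ht, rfl⟩; exact hK t ht⟩
  have hSn : S.Nonempty := ⟨_, ⟨0, mem_Ici.2 le_rfl, rfl⟩⟩
  set Q : ℝ := sSup S with hQ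
  have hle : ∀ δ : ℝ, 0 < δ → Q ≤ Real.exp δ := by
    intro δ hδ
    have h1 : Q ≤ (Real.exp δ - 1) + Real.exp (-δ) * Q := by
      apply csSup_le hSn
      rintro _ ⟨s, hs, rfl⟩
      have hs' : (0 : ℝ) ≤ s := hs
      refine (hstep s δ hs' hδ).trans ?_
      have h2 : cof (s + δ) ≤ Q := le_csSup hSb ⟨s + δ, by
        show (0 : ℝ) ≤ s + δ
        linarith, rfl⟩
      have h3 := mul_le_mul_of_nonneg_left h2 (Real.exp_pos (-δ)).le
      linarith
    have h2 : Real.exp (-δ) * Real.exp δ = 1 := by rw [← Real.exp_add]; simp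
    have h3 : Real.exp (-δ) < 1 := by rw [Real.exp_lt_one_iff]; linarith
    have h4 : (1 - Real.exp (-δ)) * Q ≤ (1 - Real.exp (-δ)) * Real.exp δ := by
      have h5 : (1 - Real.exp (-δ)) * Real.exp δ =
          Real.exp δ - Real.exp (-δ) * Real.exp δ := by ring
      rw [h5, h2]
      linarith
    exact le_of_mul_le_mul_left h4 (by linarith)
  have hQ1 : Q ≤ 1 := by
    have h1 : Tendsto (fun δ : ℝ => Real.exp δ) (𝓝[>] 0) (𝓝 (Real.exp 0)) := by
      apply Tendsto.mono_left _ nhdsWithin_le_nhds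
      exact Real.continuous_exp.tendsto 0
    rw [Real.exp_zero] at h1
    apply ge_of_tendsto h1
    filter_upwards [self_mem_nhdsWithin] with δ hδ using hle δ hδ
  have h0 : cof 0 ≤ Q := le_csSup hSb ⟨0, mem_Ici.2 le_rfl, rfl⟩
  have h1 : cof 0 = ‖q (fun z => (F z 0).1)‖ := by simp [hcof]
  rw [← h1]
  exact h0.trans hQ1

/-- Normality bounds the normalized coefficients. -/
lemma bounded_of_normal {F : ℂ × ℂ → ℝ → ℂ × ℂ}
    (holo : ∀ t : ℝ, 0 ≤ t → DifferentiableOn ℂ (fun z => F z t) B2)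
    (normal : ∀ u : ℕ → ℝ, (∀ n, 0 ≤ u n) → ∃ (φ : ℕ → ℕ) (g : ℂ × ℂ → ℂ × ℂ), StrictMono φ ∧
      TendstoLocallyUniformlyOn
        (fun n z => (Real.exp (-(u (φ n))) : ℂ) • F z (u (φ n))) g atTop B2) :
    ∃ K : ℝ, ∀ t : ℝ, 0 ≤ t → Real.exp (-t) * ‖q (fun z => (F z t).1)‖ ≤ K := by
  by_contra hcon
  push Not at hcon
  have hch : ∀ k : ℕ, ∃ t : ℝ, 0 ≤ t ∧
      (k : ℝ) < Real.exp (-t) * ‖q (fun z => (F z t).1)‖ := fun k => hcon k
  choose τ hτ0 hτ using hch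
  obtain ⟨φ, G, hφ, hG⟩ := normal τ hτ0
  set g : ℕ → ℂ × ℂ → ℂ × ℂ := fun k z => (Real.exp (-(τ k)) : ℂ) • F z (τ k) with hg
  have hgd : ∀ k, DifferentiableOn ℂ (g k) B2 := fun k =>
    (holo _ (hτ0 k)).fun_const_smul _
  have hKs : closedBall (0 : ℂ × ℂ) (1 / 2) ⊆ B2 := closedBall_subset_ball (by norm_num)
  have hu1 := (tendstoLocallyUniformlyOn_iff_forall_isCompact isOpen_ball).1 hG _ hKs
    (isCompact_closedBall _ _)
  rw [Metric.tendstoUniformlyOn_iff] at hu1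
  obtain ⟨N, hNN⟩ := eventually_atTop.1 (hu1 1 one_pos)
  have hcN : ContinuousOn (fun z => ‖g (φ N) z‖) (closedBall 0 (1 / 2)) :=
    ((hgd _).continuousOn.mono hKs).norm
  obtain ⟨B, hB⟩ := (isCompact_closedBall (0 : ℂ × ℂ) (1 / 2)).bddAbove_image hcN
  have hbound : ∀ k, N ≤ k → ∀ z ∈ closedBall (0 : ℂ × ℂ) (1 / 2), ‖g (φ k) z‖ ≤ B + 2 := by
    intro k hk z hz
    have h1 := hNN k hk z hz
    have h2 := hNN N le_rfl z hz
    have h3 : ‖g (φ N) z‖ ≤ B := hB ⟨z, hz, rfl⟩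
    rw [dist_eq_norm] at h1 h2
    have h4 : g (φ k) z = g (φ N) z + ((G z - g (φ N) z) - (G z - g (φ k) z)) := by abel
    rw [h4]
    refine (norm_add_le _ _).trans ?_
    have h5 := norm_sub_le (G z - g (φ N) z) (G z - g (φ k) z)
    have h1' : ‖G z - g (φ k) z‖ < 1 := h1
    have h2' : ‖G z - g (φ N) z‖ < 1 := h2
    linarith
  have hcof : ∀ k, N ≤ k → Real.exp (-(τ (φ k))) * ‖q (fun z => (F z (τ (φ k))).1)‖
      ≤ 4 * (B + 2) := by
    intro k hk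
    have hslice : DifferentiableOn ℂ (fun w : ℂ => (F (0, w) (τ (φ k))).1) (ball 0 1) := by
      intro ζ hζ
      have hζ' : ‖ζ‖ < 1 := by simpa using hζ
      have h1 : DifferentiableAt ℂ (fun z => F z (τ (φ k))) (0, ζ) :=
        (holo _ (hτ0 _)).differentiableAt (isOpen_ball.mem_nhds (mem_B2.2 ⟨by simp, hζ'⟩))
      have h2 : DifferentiableAt ℂ (fun ζ : ℂ => ((0, ζ) : ℂ × ℂ)) ζ := by fun_prop
      exact (DifferentiableAt.comp ζ h1.fst h2).differentiableWithinAt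
    have h2 : DiffContOnCl ℂ (fun w : ℂ => (F (0, w) (τ (φ k))).1) (ball 0 (1 / 2)) := by
      apply DifferentiableOn.diffContOnCl
      rw [closure_ball 0 (by norm_num)]
      exact hslice.mono (closedBall_subset_ball (by norm_num))
    have hE : (0 : ℝ) < Real.exp (-(τ (φ k))) := Real.exp_pos _
    have h3 := Complex.norm_iteratedDeriv_le_of_forall_mem_sphere_norm_le 2
      (by norm_num : (0:ℝ) < 1/2) h2 (C := (B + 2) / Real.exp (-(τ (φ k)))) (by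
        intro ζ hζ
        rw [le_div_iff₀ hE]
        have h4 := hbound k hk (0, ζ) (by
          rw [mem_closedBall_zero_iff, Prod.norm_def]
          simp only [norm_zero]
          rw [mem_sphere_zero_iff_norm] at hζ
          rw [hζ]; norm_num)
        have h5 : ‖(g (φ k) (0, ζ)).1‖ ≤ B + 2 := (norm_fst_le _).trans h4
        have h6 : (g (φ k) (0, ζ)).1 = (Real.exp (-(τ (φ k))) : ℂ) * (F (0, ζ) (τ (φ k))).1 := rfl
        rw [h6, norm_mul, Complex.norm_real, Real.norm_of_nonneg hE.le] at h5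
        linarith)
    rw [q, norm_mul]
    have h4 : ‖(1 / 2 : ℂ)‖ = 1 / 2 := by norm_num
    rw [h4]
    norm_num [Nat.factorial] at h3
    have h7 : Real.exp (-(τ (φ k))) * (1 / 2 *
        ‖iteratedDeriv 2 (fun w : ℂ => (F (0, w) (τ (φ k))).1) 0‖) ≤
        Real.exp (-(τ (φ k))) * (1 / 2 * (2 * ((B + 2) / Real.exp (-(τ (φ k)))) * 4)) := by
      gcongr
      linarith
    refine h7.trans (le_of_eq ?_)
    field_simp
  obtain ⟨m, hm⟩ := exists_nat_gt (4 * (B + 2))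
  have h1 := hcof (max N m) (le_max_left _ _)
  have h2 := hτ (φ (max N m))
  have h3 : (m : ℝ) ≤ (φ (max N m) : ℝ) := by
    exact_mod_cast (le_max_right N m).trans (hφ.id_le _)
  linarith

end Q72.BD
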